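import Pool.Agent.Helper54.PT.LocG

/-!
# L4 : the classes of the torsion points
-/

set_option autoImplicit false

namespace Pool.Agent.Helper54.PT

open Polynomial Finset Module Pool.Agent.Helper43.TW Pool.Agent.Helper47.BSD

universe u

variable {k : Type u} [NontriviallyNormedField k] [IsUltrametricDist k] [CompleteSpace k]
  {ℓ : ℕ} {π : k} {ι : Type} [Fintype ι] [DecidableEq ι] {a : ι → ℕ} {E : ι → k}

omit [IsUltrametricDist k] [CompleteSpace k] in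
theorem l4_rho (hE : ∀ i j, i ≠ j → E i ≠ E j) (i : ι) :
    ∃ ρ : ℝ, 0 < ρ ∧ ∀ j, j ≠ i → ρ < ‖E j - E i‖ := by
  classical
  rcases (univ.erase i).eq_empty_or_nonempty with h | h
  · refine ⟨1, one_pos, fun j hj => ?_⟩
    have : j ∈ univ.erase i := mem_erase.2 ⟨hj, mem_univ _⟩
    rw [h] at this
    exact absurd this (notMem_empty _)
  · obtain ⟨m, hm, hmin⟩ := exists_min_image (univ.erase i) (fun j => ‖E j - E i‖) h
    have h1 : 0 < ‖E m - E i‖ := norm_pos_iff.2 (sub_ne_zero.2 (hE m i (ne_of_mem_erase hm)))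
    refine ⟨‖E m - E i‖ / 2, half_pos h1, fun j hj => ?_⟩
    have h2 := hmin j (mem_erase.2 ⟨hj, mem_univ _⟩)
    linarith

theorem l4_inva (hℓ : ℓ.Prime) {n : ℕ} (hn : ¬ ℓ ∣ n) :
    (n : ZMod ℓ) * ((inva ℓ n : ℕ) : ZMod ℓ) = 1 := by
  have : Fact ℓ.Prime := ⟨hℓ⟩
  rw [inva, ZMod.natCast_val, ZMod.cast_id]
  exact mul_inv_cancel₀ fun h => hn ((ZMod.natCast_eq_zero_iff _ _).1 h)

omit [IsUltrametricDist k] [CompleteSpace k] in
/-- L4: torsion -/
theorem ptData_tt (hℓ : ℓ.Prime) (hk : LF ℓ π) (ha : ∀ i, ¬ ℓ ∣ a i)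
    (hE : ∀ i j, i ≠ j → E i ≠ E j) (i : ι) :
    PtData hk a E (fun j => cl ℓ (tt ℓ a E i j)) := by
  have : Fact ℓ.Prime := ⟨hℓ⟩
  obtain ⟨ρ, hρ, hρ'⟩ := l4_rho hE i
  have hin : ∀ j, ‖E j - E i‖ ≤ ρ → j = i := by
    intro j hj
    by_contra hne
    exact absurd (hρ' j hne) (not_lt.2 hj)
  have hS : univ.filter (fun j => ρ < ‖E j - E i‖) = univ.erase i := by
    ext j
    rw [mem_filter, mem_erase]
    constructor
    · rintro ⟨-, h⟩
      refine ⟨?_, mem_univ _⟩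
      rintro rfl
      rw [sub_self, norm_zero] at h
      exact absurd h (not_lt.2 hρ.le)
    · rintro ⟨h, -⟩
      exact ⟨mem_univ _, hρ' j h⟩
  have hout : ∀ j, j ≠ i → cl ℓ (tt ℓ a E i j) = cl ℓ (E i - E j) := by
    intro j hj
    rw [tt, if_neg hj]
  have hdiff : ∀ m ∈ univ.erase i, E i - E m ≠ 0 := fun m hm =>
    sub_ne_zero.2 (hE i m (ne_of_mem_erase hm).symm)
  have hC : outC ℓ a E i ρ = ∑ m ∈ univ.erase i, (a m : ZMod ℓ) • cl ℓ (E i - E m) := by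
    rw [outC, hS]
  have hii : cl ℓ (tt ℓ a E i i) = -((inva ℓ (a i) : ZMod ℓ) • outC ℓ a E i ρ) := by
    have hne : ∏ m ∈ univ.erase i, (E i - E m) ^ a m ≠ 0 :=
      prod_ne_zero_iff.2 fun m hm => pow_ne_zero _ (hdiff m hm)
    rw [tt, if_pos rfl, cl_inv (pow_ne_zero _ hne), cl_pow hne,
      cl_prod _ _ (fun m hm => pow_ne_zero _ (hdiff m hm)), hC]
    congr 2
    exact sum_congr rfl fun m hm => cl_pow (hdiff m hm) _
  refine ⟨i, ρ, 1, ⟨hρ, ?_, ?_, Or.inr ⟨?_, ?_, ?_⟩⟩⟩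
  · intro j hj
    rw [one_smul]
    refine hout j ?_
    rintro rfl
    rw [sub_self, norm_zero] at hj
    exact absurd hj (not_lt.2 hρ.le)
  · rw [← add_sum_erase univ _ (mem_univ i)]
    have h1 : ∑ j ∈ univ.erase i, (a j : ZMod ℓ) • cl ℓ (tt ℓ a E i j) = outC ℓ a E i ρ := by
      rw [hC]
      exact sum_congr rfl fun j hj => by rw [hout j (ne_of_mem_erase hj)]
    rw [h1, hii, smul_neg, smul_smul, l4_inva hℓ (ha i), one_smul, neg_add_cancel]
  · intro j hj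
    rw [hin j hj]
  · intro j j' hj hj'
    rw [hin j hj, hin j' hj', sub_self, norm_zero]
    exact hρ
  · show tm hk (outC ℓ a E i ρ) (cl ℓ (tt ℓ a E i i)) = 0
    rw [hii, tm_neg_right, tm_smul_right, tm_self, smul_zero, neg_zero]

end Pool.Agent.Helper54.PT
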