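import Pool.Agent.Helper54.PT.LocG
import Pool.Agent.Helper2.TW.C2c

/-!
# L1 : tame symbols and norms
-/

set_option autoImplicit false

namespace Pool.Agent.Helper54.PT

open Polynomial Finset Module Pool.Agent.Helper43.TW Pool.Agent.Helper47.BSD IntermediateField

universe u

variable {k : Type u} [NontriviallyNormedField k] [IsUltrametricDist k] [CompleteSpace k]
  {ℓ : ℕ} {π : k}

/-- norms of units from an extension with ramification index divisible by `ℓ` -/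
theorem l1_unit (hℓ : ℓ.Prime) (hk : LF ℓ π) {L : Type u} [Field L] [Algebra k L]
    [FiniteDimensional k L] {v : ℤ} (hv : ¬ (ℓ : ℤ) ∣ v) {θ : L}
    (hθ : specAbs k L θ ^ ℓ = ‖π‖ ^ v) {u : L} (hu : specAbs k L u = 1) :
    cl ℓ (Algebra.norm k u) = 0 := by
  have hu0 : u ≠ 0 := by
    rintro rfl
    rw [map_zero] at hu
    exact zero_ne_one hu
  have hco : IsCoprime (ℓ : ℤ) v := (Nat.prime_iff_prime_int.1 hℓ).irreducible.coprime_iff_not_dvd.2 hv
  obtain ⟨y, x, hxy⟩ := hco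
  have h1 : specAbs k L (θ ^ x * algebraMap k L π ^ y) ^ ℓ = ‖π‖ := by
    rw [map_mul, map_zpow₀, map_zpow₀, specAbs_algebraMap, mul_pow, ← zpow_natCast, ← zpow_mul,
      mul_comm x, zpow_mul, zpow_natCast, hθ, ← zpow_mul, ← zpow_natCast, ← zpow_mul,
      ← zpow_add₀ hk.pos.ne']
    rw [show v * x + y * (ℓ : ℤ) = 1 by linarith, zpow_one]
  obtain ⟨c, hc⟩ := (norm_unit hℓ hk _ h1).2 u hu
  exact (cl_eq_zero (Algebra.norm_ne_zero_iff.2 hu0)).2 ⟨c, hc⟩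

omit [IsUltrametricDist k] [CompleteSpace k] in
/-- the norm of a root of an element which is not an `ℓ`-th power -/
theorem l1_norm_gen (hℓ : ℓ.Prime) {L : Type u} [Field L] [Algebra k L] [FiniteDimensional k L]
    (hc : cl ℓ (-1 : k) = 0) {A : k} (hA : A ≠ 0) {θ : L} (hθ : θ ^ ℓ = algebraMap k L A)
    (hA' : cl ℓ A ≠ 0) : finrank k k⟮θ⟯ = ℓ ∧
      cl ℓ (Algebra.norm k (AdjoinSimple.gen k θ)) = cl ℓ A := by
  have hirr : Irreducible (X ^ ℓ - C A : k[X]) :=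
    X_pow_sub_C_irreducible_of_prime hℓ (fun b hb => hA' ((cl_eq_zero hA).2 ⟨b, hb.symm⟩))
  have hmin : X ^ ℓ - C A = minpoly k θ :=
    minpoly.eq_of_irreducible_of_monic hirr (by simp [hθ]) (monic_X_pow_sub_C A hℓ.ne_zero)
  have hint : IsIntegral k θ := Algebra.IsIntegral.isIntegral θ
  have hfin : finrank k k⟮θ⟯ = ℓ := by
    rw [adjoin.finrank hint, ← hmin, natDegree_X_pow_sub_C]
  refine ⟨hfin, ?_⟩
  have h1 := Algebra.PowerBasis.norm_gen_eq_coeff_zero_minpoly (adjoin.powerBasis hint)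
  rw [adjoin.powerBasis_gen, minpoly_gen, ← hmin] at h1
  rw [h1]
  have h2 : (X ^ ℓ - C A : k[X]).coeff 0 = -A := by
    rw [coeff_sub, coeff_X_pow, coeff_C_zero, if_neg hℓ.ne_zero.symm, zero_sub]
  rw [h2, cl_mul (pow_ne_zero _ (neg_ne_zero.2 one_ne_zero)) (neg_ne_zero.2 hA),
    cl_neg' hc hA, cl_pow (neg_ne_zero.2 one_ne_zero), hc, smul_zero, zero_add]

theorem l1_cl_zpow {K : Type u} [Field K] {t : K} (ht : t ≠ 0) (n : ℤ) :
    cl ℓ (t ^ n) = (n : ZMod ℓ) • cl ℓ t := by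
  rcases n with n | n
  · rw [Int.ofNat_eq_natCast, zpow_natCast, cl_pow ht, Int.cast_natCast]
  · rw [zpow_negSucc, cl_inv (pow_ne_zero _ ht), cl_pow ht, Int.cast_negSucc, neg_smul]

/-- L1: projection formula -/
theorem tm_norm (hℓ : ℓ.Prime) (hk : LF ℓ π) (hc : cl ℓ (-1 : k) = 0) {L : Type u} [Field L]
    [Algebra k L] [FiniteDimensional k L] {A : k} (hA : A ≠ 0) {θ : L}
    (hθ : θ ^ ℓ = algebraMap k L A) {z : L} (hz : z ≠ 0) :
    tm hk (cl ℓ A) (cl ℓ (Algebra.norm k z)) = 0 := by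
  have : Fact ℓ.Prime := ⟨hℓ⟩
  have hNz : Algebra.norm k z ≠ 0 := Algebra.norm_ne_zero_iff.2 hz
  by_cases hA' : cl ℓ A = 0
  · rw [hA', tm_zero_left]
  by_cases hnu : nu hk (cl ℓ A) = 0
  · -- the unramified case
    obtain ⟨c, hc0, hAc⟩ := (nu_eq_zero_iff hk hA).1 hnu
    have hcp : c ^ ℓ ≠ 0 := pow_ne_zero _ hc0
    have h1 : ‖A / c ^ ℓ‖ = 1 := by
      rw [norm_div, norm_pow, hAc]
      exact div_self (pow_ne_zero _ (norm_ne_zero_iff.2 hc0))
    have h2 : ¬ ∃ x : k, x ^ ℓ = A / c ^ ℓ := by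
      rintro ⟨x, hx⟩
      apply hA'
      rw [cl_eq_zero hA]
      refine ⟨x * c, ?_⟩
      rw [mul_pow, hx, div_mul_cancel₀ _ hcp]
    have h3 : ∃ θ' : L, θ' ^ ℓ = algebraMap k L (A / c ^ ℓ) :=
      ⟨θ / algebraMap k L c, by rw [div_pow, hθ, map_div₀, map_pow]⟩
    obtain ⟨y, hy, hyN⟩ := norm_unram hℓ hk _ h1 h2 h3 z hz
    have h4 : nu hk (cl ℓ (Algebra.norm k z)) = 0 := (nu_eq_zero_iff hk hNz).2 ⟨y, hy, hyN⟩
    rw [tm, h4, hnu, zero_smul, zero_smul, sub_zero]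
  · -- the ramified case
    obtain ⟨hfin, hgen⟩ := l1_norm_gen hℓ hc hA hθ hA'
    set M := k⟮θ⟯ with hM
    set θ' : M := AdjoinSimple.gen k θ with hθ'
    have hθ'e : θ' ^ ℓ = algebraMap k M A := by
      apply Subtype.ext
      exact hθ
    have hθ'0 : θ' ≠ 0 := by
      intro h
      rw [h, zero_pow hℓ.ne_zero] at hθ'e
      exact hA ((map_eq_zero _).1 hθ'e.symm)
    set z' : M := Algebra.norm M z with hz'
    have hz'0 : z' ≠ 0 := Algebra.norm_ne_zero_iff.2 hz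
    have h1 : Algebra.norm k z = Algebra.norm k z' := Algebra.norm_norm.symm
    obtain ⟨v, hv⟩ := hk.disc A hA
    have hνv : nu hk (cl ℓ A) = (v : ZMod ℓ) := nu_cl hk hA hv
    have hvd : ¬ (ℓ : ℤ) ∣ v := by
      intro h
      rw [hνv] at hnu
      exact hnu ((ZMod.intCast_zmod_eq_zero_iff_dvd _ _).2 h)
    obtain ⟨m, hm⟩ := hk.disc (Algebra.norm k z') (Algebra.norm_ne_zero_iff.2 hz'0)
    have h2 : specAbs k M z' ^ ℓ = ‖π‖ ^ m := by
      rw [← hm, norm_norm_eq, hfin]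
    have h3 : specAbs k M θ' ^ ℓ = ‖π‖ ^ v := by
      rw [← map_pow, hθ'e, specAbs_algebraMap, hv]
    have hco : IsCoprime (ℓ : ℤ) v :=
      (Nat.prime_iff_prime_int.1 hℓ).irreducible.coprime_iff_not_dvd.2 hvd
    obtain ⟨y, x, hxy⟩ := hco
    -- `m = (m x) v + ℓ (m y)`
    set u : M := z' / (θ' ^ (m * x) * algebraMap k M π ^ (m * y)) with hu
    have hπ : algebraMap k M π ≠ 0 := by
      rw [Ne, map_eq_zero]
      exact pi_ne hk
    have hd : θ' ^ (m * x) * algebraMap k M π ^ (m * y) ≠ 0 :=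
      mul_ne_zero (zpow_ne_zero _ hθ'0) (zpow_ne_zero _ hπ)
    have hu1 : specAbs k M u ^ ℓ = 1 := by
      rw [hu, map_div₀, map_mul, map_zpow₀, map_zpow₀, specAbs_algebraMap, div_pow, mul_pow, h2,
        ← zpow_natCast (specAbs k M θ' ^ (m * x)), ← zpow_mul, mul_comm (m * x), zpow_mul,
        zpow_natCast, h3, ← zpow_mul, ← zpow_natCast (‖π‖ ^ (m * y)), ← zpow_mul,
        ← zpow_add₀ hk.pos.ne']
      rw [show v * (m * x) + m * y * (ℓ : ℤ) = m * (y * ℓ + x * v) by ring, hxy, mul_one]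
      exact div_self (zpow_ne_zero _ hk.pos.ne')
    have hu2 : specAbs k M u = 1 :=
      (pow_eq_one_iff_of_nonneg ((specAbs k M).nonneg _) hℓ.ne_zero).1 hu1
    have hu3 := l1_unit hℓ hk hvd h3 hu2
    have hu0 : u ≠ 0 := div_ne_zero hz'0 hd
    have h4 : z' = u * (θ' ^ (m * x) * algebraMap k M π ^ (m * y)) := by
      rw [hu, div_mul_cancel₀ _ hd]
    have hN : ∀ t : M, t ≠ 0 → ∀ n : ℤ, cl ℓ (Algebra.norm k (t ^ n)) =
        (n : ZMod ℓ) • cl ℓ (Algebra.norm k t) := by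
      intro t ht n
      rw [← nmC_cl k M ht, ← nmC_cl k M (zpow_ne_zero n ht), l1_cl_zpow ht, nmC_smul]
    have h5 : cl ℓ (Algebra.norm k z) = ((m * x : ℤ) : ZMod ℓ) • cl ℓ A := by
      rw [h1, h4, map_mul, map_mul, cl_mul (Algebra.norm_ne_zero_iff.2 hu0)
        (mul_ne_zero (Algebra.norm_ne_zero_iff.2 (zpow_ne_zero _ hθ'0))
          (Algebra.norm_ne_zero_iff.2 (zpow_ne_zero _ hπ))), hu3, zero_add,
        cl_mul (Algebra.norm_ne_zero_iff.2 (zpow_ne_zero _ hθ'0))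
          (Algebra.norm_ne_zero_iff.2 (zpow_ne_zero _ hπ)), hN _ hθ'0, hN _ hπ, hgen,
        Algebra.norm_algebraMap, hfin, cl_pow_ell (pi_ne hk), smul_zero, add_zero]
    rw [h5, tm_smul_right, tm_self, smul_zero]

end Pool.Agent.Helper54.PT
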